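import Pool.Agent.H73.GMS.Stmts

/-!
# Board gms, row MXG: maximal good sets
-/

set_option autoImplicit false

namespace GMS

namespace MXGaux

variable {F : Type*} [Group F] {K N₀ : Subgroup F}

theorem sub_cl (S : Set F) : S ⊆ (cl K N₀ S : Set F) := by
  intro s hs
  refine Subgroup.subset_closure (Or.inl ⟨1, K.one_mem, s, hs, ?_⟩)
  group

theorem n0_le (S : Set F) : N₀ ≤ cl K N₀ S :=
  fun _ hx => Subgroup.subset_closure (Or.inr hx)

theorem cl_le {S : Set F} {M : Subgroup F} (hN : N₀ ≤ M)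
    (hM : ∀ g ∈ K, ∀ x ∈ M, g * x * g⁻¹ ∈ M) (hS : S ⊆ (M : Set F)) : cl K N₀ S ≤ M := by
  unfold cl
  rw [Subgroup.closure_le]
  rintro x (⟨g, hg, s, hs, rfl⟩ | hx)
  · exact hM g hg s (hS hs)
  · exact hN hx

theorem cl_conj (hN : N₀.Normal) (S : Set F) :
    ∀ g ∈ K, ∀ x ∈ cl K N₀ S, g * x * g⁻¹ ∈ cl K N₀ S := by
  intro g hg x hx
  unfold cl at hx ⊢
  induction hx using Subgroup.closure_induction with
  | mem y hy =>
    rcases hy with ⟨h, hh, s, hs, rfl⟩ | hy
    · refine Subgroup.subset_closure (Or.inl ⟨g * h, K.mul_mem hg hh, s, hs, ?_⟩)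
      group
    · exact Subgroup.subset_closure (Or.inr (hN.conj_mem y hy g))
  | one => simp
  | mul a b _ _ ha hb =>
    have h1 : g * (a * b) * g⁻¹ = (g * a * g⁻¹) * (g * b * g⁻¹) := by group
    rw [h1]
    exact Subgroup.mul_mem _ ha hb
  | inv a _ ha =>
    have h1 : g * a⁻¹ * g⁻¹ = (g * a * g⁻¹)⁻¹ := by group
    rw [h1]
    exact Subgroup.inv_mem _ ha

theorem good {M : Subgroup F} (hN : N₀ ≤ M) (hMK : M ≤ K)
    (hM : ∀ g ∈ K, ∀ x ∈ M, g * x * g⁻¹ ∈ M) (hne : M ≠ K) : Gd K N₀ (M : Set F) := by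
  refine ⟨hMK, fun h => hne ?_⟩
  rw [← h]
  exact le_antisymm (fun x hx => sub_cl _ hx) (cl_le hN hM le_rfl)

end MXGaux

open MXGaux in
/-- Row MXG. -/
theorem MXG {F : Type*} [Group F] : MXGStmt (F := F) := by
  intro K N₀ hNK hN S hS
  obtain ⟨⟨hSK, hSne⟩, hmax⟩ := hS
  have hCK : cl K N₀ S ≤ K := cl_le hNK
    (fun g hg x hx => K.mul_mem (K.mul_mem hg hx) (K.inv_mem hg)) hSK
  have hSC : S = (cl K N₀ S : Set F) :=
    (hmax _ (good (n0_le S) hCK (cl_conj hN S) hSne) (sub_cl S)).symm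
  refine ⟨hSC, ?_⟩
  have hnor : ((cl K N₀ S).subgroupOf K).Normal := by
    constructor
    intro n hn g
    rw [Subgroup.mem_subgroupOf] at hn ⊢
    exact cl_conj hN S g g.2 n hn
  refine ⟨hnor, ?_⟩
  have hnt : Nontrivial (K ⧸ (cl K N₀ S).subgroupOf K) := by
    rw [QuotientGroup.nontrivial_iff, Ne, Subgroup.subgroupOf_eq_top]
    exact fun h => hSne (le_antisymm hCK h)
  refine { hnt with eq_bot_or_eq_top_of_normal := ?_ }
  intro H hH
  set L : Subgroup K := H.comap (QuotientGroup.mk' ((cl K N₀ S).subgroupOf K)) with hL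
  have hLn : L.Normal := hH.comap _
  have hML : (cl K N₀ S).subgroupOf K ≤ L := by
    intro x hx
    rw [hL, Subgroup.mem_comap]
    have h1 : QuotientGroup.mk' ((cl K N₀ S).subgroupOf K) x = 1 := by
      rw [QuotientGroup.mk'_apply, QuotientGroup.eq_one_iff]
      exact hx
    rw [h1]
    exact H.one_mem
  have hHmap : L.map (QuotientGroup.mk' ((cl K N₀ S).subgroupOf K)) = H :=
    Subgroup.map_comap_eq_self_of_surjective (QuotientGroup.mk'_surjective _) H
  by_cases hK : L.map K.subtype = K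
  · right
    have h1 : L = ⊤ := by
      rw [eq_top_iff]
      intro x _
      have h2 : (x : F) ∈ L.map K.subtype := by
        rw [hK]
        exact x.2
      obtain ⟨y, hy, hyx⟩ := Subgroup.mem_map.1 h2
      have h3 : y = x := Subtype.ext hyx
      rwa [← h3]
    rw [← hHmap, h1, Subgroup.map_top_of_surjective _ (QuotientGroup.mk'_surjective _)]
  · left
    have hle : cl K N₀ S ≤ L.map K.subtype := by
      intro x hx
      exact Subgroup.mem_map.2 ⟨⟨x, hCK hx⟩, hML hx, rfl⟩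
    have hg : Gd K N₀ ((L.map K.subtype : Subgroup F) : Set F) := by
      refine good ((n0_le S).trans hle) ?_ ?_ hK
      · intro x hx
        obtain ⟨y, -, rfl⟩ := Subgroup.mem_map.1 hx
        exact y.2
      · intro g hg x hx
        obtain ⟨y, hy, rfl⟩ := Subgroup.mem_map.1 hx
        exact Subgroup.mem_map.2 ⟨⟨g, hg⟩ * y * ⟨g, hg⟩⁻¹, hLn.conj_mem y hy ⟨g, hg⟩, rfl⟩
    have h1 := hmax _ hg ((sub_cl S).trans hle)
    rw [← hHmap, eq_bot_iff]
    rintro _ ⟨y, hy, rfl⟩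
    rw [Subgroup.mem_bot, QuotientGroup.mk'_apply, QuotientGroup.eq_one_iff,
      Subgroup.mem_subgroupOf]
    have h2 : (y : F) ∈ ((L.map K.subtype : Subgroup F) : Set F) :=
      Subgroup.mem_map.2 ⟨y, hy, rfl⟩
    rw [h1] at h2
    exact sub_cl S h2

end GMS
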